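import Pool.Agent.Lib_helper1.VecDefs

set_option maxRecDepth 100000

namespace Pool.Agent.Lib_helper1.C2

open Pool.Agent.Lib_helper1.V

noncomputable section

def e0 : Nat := unpack 40 122 20 (cat [nat_lit 0x5b56e3e8b063f3060b272eb5324292650626f4a8280483c4d7439d7283a6840db29dea2b38b64268447c531f42562ea336443799a421232b6002dbd1859ea40208350904852a4538b39fec44d6d39621290f15d01d79f8129847549bb3fca84804369a0d3278b309b95f09d422a72d6895c7e82c65f2d4fd4044a2cb883a0dab960759dc231aaf45dad669c3519b158d6729dd52997484f085162c2dd3d4806b407773cf746b25833b8a2c7135b9ac4a2392b9c64476f3e1cd2ec473db422a70c2cd34e086455a5f2f4c84a46941c064e08b646fb2ad49286c78b38473ffc296de392444e0de27d72a36ce2aed53586e5430c453702fce440ba03506c2d77a3f70b2b74230b217a13d3ec723bb6548ab75540c38e1d4b2fe435a72bd8b5cce7658282dc2746c974c37938f765a2862d1ff284d36599342d962bd2a5602b2e310289c75003a368a845a9a804ce45fd92a039437bd536e63a2845fd70374d22ce2c84337593932c9f63fd9b389593804966cf63b6f13a37b7fcf648e8e2e9b13ecf235aca314a94146e2c43a3645ab8ed256e612d1644c97b45528457ca781b92c6cc261b88263c98c9f28a0b3d2cc426f12972276b5e2aa672d2eb5b24a3cf0e301ef48cc3327fd307fd4892c2e5ce2fce085bc43f3ef4190249c313de3534b1252048361cc255d35ca6e57aaa2bbca464fd42ecb,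
nat_lit 0x38b997d0342c2bc2bd4f6d3e95284c353656c1c12f2f22a11040d1d2b65a36cdc93c7256b5035d5240f354d28b470ed64bdf305ab268fdaafa25404633a51429764a2032e2ee5d34f30299376db611fa4ae282c809467b238a132c352422c32870834408adc056b3fd2fe90])

def e1 : Nat := unpack 40 122 20 (cat [nat_lit 0x2c85a254e54a596ff5e81ba05884235300f3f46f42d1936d043031455898760811d0a55a68f7e3e72eb6d43fa6389e23979e8039d42d4e222ba6fcaa5f10c337b6668af293f72532d42a19797a91ae0d9690e6341c32c0e3bf7f471eb3649462645855071ea74aea5e7fdc520cb7417fe3cda726b11663e94ec6928166643ad8a8f31f85944ce636d162529543188839781b4cfb327f726522ece14f8c43510158664613daae1ce1b7d9662fcc1175273c13a5373fa4724353897936a3f323b1f6801a7f04b27877531ae2de5831cba44db4b9b661a8fc8bd8b5c00f2e6604593d3b5483214846daa71f411eaf45d4b38f39026818515d0347bf426236d16d48ad0284b363a155d12b2c66e5721027b7627f93448167f8891b701bd9105fa752be39422e65f1da4223c56e3bf98261f4df89acb957272148d43c2c39d52349cf6f30e5d4841dc4665363b5bf425ffa424b13848727a843ff64994d31b6f7fa244595bb2a1094360a39ff145a6861a47fffff1d0c98c14ab3545248e438dd9496ae25189a4607530482a760561446981c2849b3b0172f547264a6406ecb61fd22c4b7c2af61f403431746d644e44e3342151e8859f95210525cc5d8f2772c04e43daf44e8d347655eb513ca502169e685f16212e309b44def82920e21fa35329a82b221c2f3855ba5b1cd270c14041448edb2fcab,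
nat_lit 0x5fc56c1e281de2c85b34bd74422dc23ee2435cae3061d6a5e650d671fc9383ab8923a1276e93d38b301092910e448b5c531119489bdbdf5af1e26d7b407ae38a6b400f973bd7c02181fde881cc0ff44224eef3bc2841b77267727e10950ef8272ed5faa58ac8b247e147ef1])

end

end Pool.Agent.Lib_helper1.C2
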