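import Pool.Agent.Lib_helper1.C2.D00

set_option maxRecDepth 100000

namespace Pool.Agent.Lib_helper1.C2

open Pool.Agent.Lib_helper1.V

noncomputable section

/-- the table, by chunks -/
def Ei (i : Nat) : Nat := (cond (Nat.ble i 0) e0 e1)

/-- the parameters -/
def P : Par :=
  { w := 40, s := 5, j := 3, L := 8, sh := 16, cb := 22, eb := 20,
    A := 21618, B := 50546, C := 88006, q := 20, xb := 26, f := 3, a := 13, sb := 20, F := 262144, a2 := 18, KR := 8654,
    Ks := [(6069, 651), (7051, 13055), (7600, 58481), (7890, 123675), (8040, 180245), (8116, 217562), (8154, 238867), (8173, 250249), (8182, 255818), (8187, 258963), (8190, 260867), (8191, 261505)] }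

/-- the table, by low digits -/
def Ed (b : Nat) : Nat := EdOf P (fun x => Ei (idx9 x)) b

end

end Pool.Agent.Lib_helper1.C2
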